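import Mathlib

/-!
# Remainders of realcompact spaces are selectively highly divergent
-/

namespace Pool.Agent.Results.MP_47dce7_gt.RemainderSHD

open Set Topology Filter Function

universe u

/-- A space is realcompact if it is homeomorphic to a closed subspace of a power of the real
line. -/
def Realcompact (X : Type u) [TopologicalSpace X] : Prop :=
  ∃ (ι : Type u) (e : X → ι → ℝ), IsClosedEmbedding e

/-- The remainder `βX ∖ X` of the Stone-Čech compactification. -/
abbrev Remainder (X : Type u) [TopologicalSpace X] : Type u :=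
  {p : StoneCech X // p ∉ range (stoneCechUnit : X → StoneCech X)}

/-- Selectively highly divergent spaces. -/
def SHD (Y : Type u) [TopologicalSpace Y] : Prop :=
  ∀ U : ℕ → Set Y, (∀ n, IsOpen (U n)) → (∀ n, (U n).Nonempty) →
    ∃ x : ℕ → Y, (∀ n, x n ∈ U n) ∧
      ∀ φ : ℕ → ℕ, StrictMono φ → ∀ p : Y, ¬ Tendsto (x ∘ φ) atTop (𝓝 p)

variable {X : Type u} [TopologicalSpace X]

/-- Extension of bounded continuous functions. -/
theorem exists_ext {a b : ℝ} {g : X → ℝ} (hg : Continuous g) (h : ∀ x, g x ∈ Icc a b) :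
    ∃ G : StoneCech X → ℝ, Continuous G ∧ (∀ x, G (stoneCechUnit x) = g x) ∧
      ∀ y, G y ∈ Icc a b := by
  have hg' : Continuous (fun x => (⟨g x, h x⟩ : Icc a b)) := hg.subtype_mk _
  refine ⟨fun y => ((stoneCechExtend hg' y : Icc a b) : ℝ),
    continuous_subtype_val.comp (continuous_stoneCechExtend hg'), fun x => ?_, fun y => ?_⟩
  · simp only
    rw [stoneCechExtend_stoneCechUnit]
  · exact (stoneCechExtend hg' y : Icc a b).2

/-- Points outside a realcompact space are zeros of continuous functions positive on the space. -/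
theorem exists_fun (hX : Realcompact X) (p : StoneCech X)
    (hp : p ∉ range (stoneCechUnit : X → StoneCech X)) :
    ∃ h : StoneCech X → ℝ, Continuous h ∧ (∀ x : X, 0 < h (stoneCechUnit x)) ∧ h p = 0 ∧
      ∀ y, 0 ≤ h y := by
  obtain ⟨ι, e, he⟩ := hX
  have hei : ∀ i, Continuous fun x => e x i := fun i => (continuous_apply i).comp he.continuous
  have hk : ∀ i, ∃ H : StoneCech X → ℝ, Continuous H ∧
      (∀ x, H (stoneCechUnit x) = 1 / (1 + |e x i|)) ∧ ∀ y, H y ∈ Icc (0 : ℝ) 1 := by
    intro i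
    refine exists_ext ?_ fun x => ⟨by positivity, ?_⟩
    · refine continuous_const.div (continuous_const.add (hei i).abs) ?_
      intro x
      positivity
    · rw [div_le_one (by positivity)]
      linarith [abs_nonneg (e x i)]
  choose H hHc hHu hH01 using hk
  by_cases hex : ∃ i, H i p = 0
  · obtain ⟨i, hi⟩ := hex
    refine ⟨H i, hHc i, ?_, hi, fun y => (hH01 i y).1⟩
    intro x
    rw [hHu]
    positivity
  · exfalso
    push Not at hex
    set F : Filter X := comap stoneCechUnit (𝓝 p) with hF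
    have hFne : F.NeBot := by
      rw [hF, comap_neBot_iff]
      intro t ht
      obtain ⟨a, ha⟩ := denseRange_stoneCechUnit.exists_mem_open isOpen_interior
        ⟨p, mem_interior_iff_mem_nhds.mpr ht⟩
      exact ⟨a, interior_subset ha⟩
    have hFt : Tendsto stoneCechUnit F (𝓝 p) := tendsto_comap
    have hconv : ∀ i, ∃ z : ℝ, Tendsto (fun x => e x i) F (𝓝 z) := by
      intro i
      have h1 : 0 < H i p := lt_of_le_of_ne (hH01 i p).1 (Ne.symm (hex i))
      set δ : ℝ := H i p / 2 with hδ
      have hδ0 : 0 < δ := by positivity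
      have h2 : Tendsto (fun x => 1 / (1 + |e x i|)) F (𝓝 (H i p)) := by
        refine (((hHc i).tendsto p).comp hFt).congr fun x => ?_
        simp only [Function.comp, hHu]
      have h4 : ∀ᶠ x in F, |e x i| ≤ 1 / δ := by
        have h5 : ∀ᶠ x in F, δ < 1 / (1 + |e x i|) :=
          h2.eventually_const_lt (by rw [hδ]; linarith)
        filter_upwards [h5] with x hx
        rw [lt_div_iff₀ (by positivity)] at hx
        rw [le_div_iff₀ hδ0]
        nlinarith [abs_nonneg (e x i)]
      have hM : -(1 / δ) ≤ 1 / δ := by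
        have : 0 < 1 / δ := by positivity
        linarith
      obtain ⟨T, hTc, hTu, _⟩ := exists_ext (X := X) (a := -(1 / δ)) (b := 1 / δ)
        (g := fun x => (projIcc (-(1 / δ)) (1 / δ) hM (e x i) : ℝ))
        (continuous_subtype_val.comp (continuous_projIcc.comp (hei i)))
        (fun x => (projIcc (-(1 / δ)) (1 / δ) hM (e x i)).2)
      refine ⟨T p, ?_⟩
      refine ((hTc.tendsto p).comp hFt).congr' ?_
      filter_upwards [h4] with x hx
      simp only [Function.comp, hTu]
      rw [projIcc_of_mem hM (abs_le.mp hx)]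
    choose z hz using hconv
    have hze : Tendsto e F (𝓝 z) := tendsto_pi_nhds.mpr hz
    have hzr : z ∈ range e := he.isClosed_range.mem_of_tendsto hze
      (Eventually.of_forall fun x => mem_range_self x)
    obtain ⟨x0, rfl⟩ := hzr
    have h7 : Tendsto id F (𝓝 x0) := by
      rw [he.isInducing.tendsto_nhds_iff]
      exact hze
    have h8 : Tendsto stoneCechUnit F (𝓝 (stoneCechUnit x0)) :=
      (continuous_stoneCechUnit.tendsto x0).comp h7
    exact hp ⟨x0, tendsto_nhds_unique h8 hFt⟩

/-- Pairwise disjoint open neighbourhoods of the terms of a convergent sequence. -/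
theorem disjoint_nhds {Y : Type*} [TopologicalSpace Y] [T3Space Y] {p : Y} {x : ℕ → Y}
    (hinj : Injective x) (hne : ∀ n, x n ≠ p) (hx : Tendsto x atTop (𝓝 p)) :
    ∃ O : ℕ → Set Y, (∀ n, IsOpen (O n)) ∧ (∀ n, x n ∈ O n) ∧
      ∀ n m, n ≠ m → Disjoint (O n) (O m) := by
  classical
  -- neighbourhoods missing the other points
  have hO' : ∀ n, ∃ O : Set Y, IsOpen O ∧ x n ∈ O ∧
      ∀ m, m ≠ n → x m ∉ closure O := by
    intro n
    have h1 : Tendsto (fun m : {m : ℕ // m ≠ n} => x m) cofinite (𝓝 p) := by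
      have := Subtype.val_injective.tendsto_cofinite (β := ℕ) (α := {m : ℕ // m ≠ n})
      rw [Nat.cofinite_eq_atTop] at this
      exact hx.comp this
    have h2 : IsClosed (insert p (range (fun m : {m : ℕ // m ≠ n} => x m))) :=
      h1.isCompact_insert_range_of_cofinite.isClosed
    have h3 : x n ∈ (insert p (range (fun m : {m : ℕ // m ≠ n} => x m)))ᶜ := by
      simp only [mem_compl_iff, mem_insert_iff, mem_range, not_or, not_exists]
      exact ⟨hne n, fun m hm => m.2 (hinj hm)⟩
    obtain ⟨t, ht, htc, hts⟩ := exists_mem_nhds_isClosed_subset (h2.isOpen_compl.mem_nhds h3)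
    refine ⟨interior t, isOpen_interior, mem_interior_iff_mem_nhds.mpr ht, fun m hm hmc => ?_⟩
    have h4 := hts (closure_minimal interior_subset htc hmc)
    exact h4 (Or.inr ⟨⟨m, hm⟩, rfl⟩)
  choose O' hO'o hO'x hO'm using hO'
  set O : ℕ → Set Y := fun n => O' n \ ⋃ k ∈ Finset.range n, closure (O' k) with hOdef
  have hOd : ∀ n m, n < m → Disjoint (O n) (O m) := by
    intro n m hnm
    rw [Set.disjoint_left]
    intro y hy hy2
    apply hy2.2
    simp only [mem_iUnion, Finset.mem_range]
    exact ⟨n, hnm, subset_closure hy.1⟩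
  refine ⟨O, fun n => (hO'o n).sdiff (isClosed_biUnion_finset fun k _ => isClosed_closure), ?_, ?_⟩
  · intro n
    refine ⟨hO'x n, ?_⟩
    simp only [mem_iUnion, not_exists, Finset.mem_range]
    intro k hk
    exact hO'm k n hk.ne'
  · intro n m hnm
    rcases lt_or_gt_of_ne hnm with h | h
    · exact hOd n m h
    · exact (hOd m n h).symm

theorem tendsto_two_mul : Tendsto (fun n : ℕ => 2 * n) atTop atTop :=
  tendsto_atTop_mono (fun n => by simp only [id]; omega) tendsto_id

theorem tendsto_two_mul_add : Tendsto (fun n : ℕ => 2 * n + 1) atTop atTop :=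
  tendsto_atTop_mono (fun n => by simp only [id]; omega) tendsto_id

/-- The glued function. -/
theorem exists_glue {h : StoneCech X → ℝ} (hc : Continuous h)
    (hpos : ∀ x : X, 0 < h (stoneCechUnit x)) {O : ℕ → Set (StoneCech X)}
    (hOo : ∀ n, IsOpen (O n)) (hOd : ∀ n m, n ≠ m → Disjoint (O n) (O m))
    {c : ℕ → ℝ} (hc0 : Tendsto c atTop (𝓝 0)) {f : ℕ → C(StoneCech X, ℝ)}
    (hf0 : ∀ n y, ¬ (y ∈ O n ∧ h y < c n) → f n y = 0)
    (hf2 : ∀ n y, f n y ∈ Icc (0 : ℝ) 1) :
    ∃ G : StoneCech X → ℝ, Continuous G ∧ (∀ n, ∀ z ∈ O (2 * n), G z = f (2 * n) z) ∧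
      (∀ n, ∀ z ∈ O (2 * n + 1), G z = 0) := by
  set g : X → ℝ := fun y => ∑ᶠ n : ℕ, f (2 * n) (stoneCechUnit y) with hg
  have hgc : Continuous g := by
    refine continuous_finsum (fun n => (f (2 * n)).continuous.comp continuous_stoneCechUnit) ?_
    intro y
    have hδ : 0 < h (stoneCechUnit y) / 2 := by have := hpos y; positivity
    refine ⟨{y' | h (stoneCechUnit y) / 2 < h (stoneCechUnit y')}, ?_, ?_⟩
    · apply IsOpen.mem_nhds
      · exact isOpen_lt continuous_const (hc.comp continuous_stoneCechUnit)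
      · simp only [mem_ofPred_eq]
        have := hpos y
        linarith
    · have h1 : ∀ᶠ n : ℕ in atTop, c (2 * n) < h (stoneCechUnit y) / 2 :=
        (hc0.comp tendsto_two_mul).eventually_lt_const hδ
      obtain ⟨N, hN⟩ := eventually_atTop.mp h1
      refine (finite_lt_nat N).subset ?_
      rintro n ⟨y', hy', hy''⟩
      simp only [mem_ofPred_eq]
      by_contra hn
      push Not at hn
      have h3 := hN n hn
      apply hy'
      apply hf0
      rintro ⟨_, h4⟩
      simp only [mem_ofPred_eq] at hy''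
      linarith
  have hgO : ∀ n y, stoneCechUnit y ∈ O (2 * n) → g y = f (2 * n) (stoneCechUnit y) := by
    intro n y hy
    refine finsum_eq_single _ n ?_
    intro m hm
    apply hf0
    rintro ⟨h1, _⟩
    exact (Set.disjoint_left.mp (hOd (2 * m) (2 * n) (by omega))) h1 hy
  have hgO0 : ∀ y, (∀ n, stoneCechUnit y ∉ O (2 * n)) → g y = 0 := by
    intro y hy
    have : (fun n : ℕ => f (2 * n) (stoneCechUnit y)) = fun _ => 0 := by
      funext n
      exact hf0 _ _ fun h => hy n h.1
    simp only [hg, this, finsum_zero]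
  have hg01 : ∀ y, g y ∈ Icc (0 : ℝ) 1 := by
    intro y
    by_cases hy : ∃ n, stoneCechUnit y ∈ O (2 * n)
    · obtain ⟨n, hn⟩ := hy
      rw [hgO n y hn]
      exact hf2 _ _
    · push Not at hy
      rw [hgO0 y hy]
      simp
  obtain ⟨G, hGc, hGu, _⟩ := exists_ext hgc hg01
  have hdense : Dense (range (stoneCechUnit : X → StoneCech X)) := denseRange_stoneCechUnit
  refine ⟨G, hGc, ?_, ?_⟩
  · intro n z hz
    have h1 : IsClosed {z | G z = f (2 * n) z} := isClosed_eq hGc (f (2 * n)).continuous
    have h2 : O (2 * n) ∩ range (stoneCechUnit : X → StoneCech X) ⊆ {z | G z = f (2 * n) z} := by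
      rintro _ ⟨hz, y, rfl⟩
      simp only [mem_ofPred_eq]
      rw [hGu, hgO n y hz]
    exact (closure_minimal h2 h1) (hdense.open_subset_closure_inter (hOo _) hz)
  · intro n z hz
    have h1 : IsClosed {z | G z = 0} := isClosed_eq hGc continuous_const
    have h2 : O (2 * n + 1) ∩ range (stoneCechUnit : X → StoneCech X) ⊆ {z | G z = 0} := by
      rintro _ ⟨hz, y, rfl⟩
      simp only [mem_ofPred_eq]
      rw [hGu]
      apply hgO0
      intro m hm
      exact (Set.disjoint_left.mp (hOd (2 * m) (2 * n + 1) (by omega))) hm hz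
    exact (closure_minimal h2 h1) (hdense.open_subset_closure_inter (hOo _) hz)

/-- Bump functions. -/
theorem exists_bump {Y : Type*} [TopologicalSpace Y] [NormalSpace Y] [T1Space Y] {U : Set Y}
    (hU : IsOpen U) {a : Y} (ha : a ∈ U) :
    ∃ f : C(Y, ℝ), (∀ y, y ∉ U → f y = 0) ∧ f a = 1 ∧ ∀ y, f y ∈ Icc (0 : ℝ) 1 := by
  obtain ⟨f, h0, h1, h2⟩ := exists_continuous_zero_one_of_isClosed hU.isClosed_compl
    (isClosed_singleton (x := a)) (by
      rw [Set.disjoint_right]
      intro y hy
      rw [mem_singleton_iff] at hy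
      rw [hy]
      simpa using ha)
  exact ⟨f, fun y hy => h0 hy, h1 rfl, h2⟩

/-- No injective sequence converges to such a zero. -/
theorem no_seq {h : StoneCech X → ℝ} (hc : Continuous h)
    (hpos : ∀ x : X, 0 < h (stoneCechUnit x)) {p : StoneCech X} (hp : h p = 0)
    {x : ℕ → StoneCech X} (hinj : Injective x) (hne : ∀ n, x n ≠ p)
    (hx : Tendsto x atTop (𝓝 p)) : False := by
  obtain ⟨O, hOo, hOx, hOd⟩ := disjoint_nhds hinj hne hx
  have hc0 : Tendsto (fun n : ℕ => h (x n) + 1 / ((n : ℝ) + 1)) atTop (𝓝 0) := by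
    have h1 : Tendsto (fun n => h (x n)) atTop (𝓝 0) := by
      rw [← hp]
      exact (hc.tendsto p).comp hx
    have := h1.add (tendsto_one_div_add_atTop_nhds_zero_nat (𝕜 := ℝ))
    rw [add_zero] at this
    exact this
  have hu : ∀ n : ℕ, ∃ f : C(StoneCech X, ℝ),
      (∀ y, ¬ (y ∈ O n ∧ h y < h (x n) + 1 / ((n : ℝ) + 1)) → f y = 0) ∧
      f (x n) = 1 ∧ ∀ y, f y ∈ Icc (0 : ℝ) 1 := by
    intro n
    have ho : IsOpen (O n ∩ {y | h y < h (x n) + 1 / ((n : ℝ) + 1)}) :=
      (hOo n).inter (isOpen_lt hc continuous_const)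
    have hmem : x n ∈ O n ∩ {y | h y < h (x n) + 1 / ((n : ℝ) + 1)} := by
      refine ⟨hOx n, ?_⟩
      simp only [mem_ofPred_eq]
      have : (0 : ℝ) < 1 / ((n : ℝ) + 1) := by positivity
      linarith
    exact exists_bump ho hmem
  choose f hf0 hf1 hf2 using hu
  obtain ⟨G, hGc, hG1, hG2⟩ := exists_glue hc hpos hOo hOd hc0 hf0 hf2
  have hl1 : Tendsto (fun n : ℕ => G (x (2 * n))) atTop (𝓝 (G p)) :=
    (hGc.tendsto p).comp (hx.comp tendsto_two_mul)
  have hl2 : Tendsto (fun n : ℕ => G (x (2 * n + 1))) atTop (𝓝 (G p)) :=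
    (hGc.tendsto p).comp (hx.comp tendsto_two_mul_add)
  have e1 : (fun n : ℕ => G (x (2 * n))) = fun _ => 1 := by
    funext n
    rw [hG1 n _ (hOx _), hf1]
  have e2 : (fun n : ℕ => G (x (2 * n + 1))) = fun _ => 0 := by
    funext n
    rw [hG2 n _ (hOx _)]
  rw [e1] at hl1
  rw [e2] at hl2
  have h1 := tendsto_nhds_unique hl1 tendsto_const_nhds
  have h2 := tendsto_nhds_unique hl2 tendsto_const_nhds
  linarith

/-- The remainder has no isolated points. -/
theorem no_isolated (hX : Realcompact X) (p : Remainder X) : NeBot (𝓝[≠] p) := by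
  rw [neBot_iff]
  intro hbot
  rw [← isOpen_singleton_iff_punctured_nhds] at hbot
  obtain ⟨O, hO, hOp⟩ := isOpen_induced_iff.mp hbot
  have hpO : (p : StoneCech X) ∈ O := by
    have : p ∈ ((↑) : Remainder X → StoneCech X) ⁻¹' O := by rw [hOp]; rfl
    exact this
  obtain ⟨h, hc, hpos, hp, hnn⟩ := exists_fun hX p p.2
  obtain ⟨C, hC, hCc, hCO⟩ := exists_mem_nhds_isClosed_subset (hO.mem_nhds hpO)
  have hex : ∀ ε : ℝ, 0 < ε → ∃ x : X, stoneCechUnit x ∈ C ∧ h (stoneCechUnit x) < ε := by
    intro ε hε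
    have ho : IsOpen (interior C ∩ {y | h y < ε}) :=
      isOpen_interior.inter (isOpen_lt hc continuous_const)
    obtain ⟨a, ha⟩ := (denseRange_stoneCechUnit (α := X)).exists_mem_open ho
      ⟨p, mem_interior_iff_mem_nhds.mpr hC, by simp only [mem_ofPred_eq, hp]; exact hε⟩
    exact ⟨a, interior_subset ha.1, ha.2⟩
  obtain ⟨f, hf1, hf2⟩ := exists_seq_of_forall_finset_exists (fun x : X => stoneCechUnit x ∈ C)
    (fun x y => h (stoneCechUnit y) < h (stoneCechUnit x) / 2) (by
      intro s _
      rcases s.eq_empty_or_nonempty with rfl | hs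
      · obtain ⟨x, hx, _⟩ := hex 1 one_pos
        exact ⟨x, hx, by simp⟩
      · obtain ⟨m, hm, hmin⟩ := s.exists_min_image (fun x => h (stoneCechUnit x)) hs
        obtain ⟨x, hx, hx2⟩ := hex (h (stoneCechUnit m) / 2) (by have := hpos m; positivity)
        refine ⟨x, hx, fun y hy => hx2.trans_le ?_⟩
        have := hmin y hy
        linarith)
  have hbound : ∀ n, h (stoneCechUnit (f n)) ≤ h (stoneCechUnit (f 0)) * (1 / 2) ^ n := by
    intro n
    induction n with
    | zero => simp
    | succ n ih =>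
      have := hf2 n (n + 1) (Nat.lt_succ_self n)
      rw [pow_succ]
      linarith
  have hlim : Tendsto (fun n => h (stoneCechUnit (f n))) atTop (𝓝 0) := by
    have h1 : Tendsto (fun n : ℕ => h (stoneCechUnit (f 0)) * (1 / 2 : ℝ) ^ n) atTop (𝓝 0) := by
      have := (tendsto_pow_atTop_nhds_zero_of_lt_one (r := (1 / 2 : ℝ)) (by norm_num)
        (by norm_num)).const_mul (h (stoneCechUnit (f 0)))
      rwa [mul_zero] at this
    exact squeeze_zero (fun n => hnn _) hbound h1
  refine no_seq hc hpos hp (x := fun n => stoneCechUnit (f n)) ?_ ?_ ?_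
  · intro m n hmn
    simp only at hmn
    by_contra hne
    rcases lt_or_gt_of_ne hne with h1 | h1
    · have h2 := hf2 m n h1
      rw [hmn] at h2
      have := hpos (f n)
      linarith
    · have h2 := hf2 n m h1
      rw [hmn] at h2
      have := hpos (f n)
      linarith
  · intro n hn
    exact p.2 ⟨f n, hn⟩
  · refine tendsto_nhds_of_unique_mapClusterPt fun q hq => ?_
    have hqC : q ∈ C := hCc.mem_of_mapClusterPt hq (Eventually.of_forall hf1)
    have hq0 : h q = 0 := by
      have h1 : MapClusterPt (h q) atTop (h ∘ fun n => stoneCechUnit (f n)) :=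
        hq.continuousAt_comp hc.continuousAt
      exact eq_of_nhds_neBot (ClusterPt.mono h1 hlim)
    have hqX : q ∉ range (stoneCechUnit : X → StoneCech X) := by
      rintro ⟨x, rfl⟩
      exact (hpos x).ne' hq0
    have : (⟨q, hqX⟩ : Remainder X) ∈ ((↑) : Remainder X → StoneCech X) ⁻¹' O := hCO hqC
    rw [hOp, mem_singleton_iff] at this
    exact congrArg Subtype.val this

/-- Injective choices from infinite sets. -/
theorem exists_inj_choice {Y : Type*} {U : ℕ → Set Y} (h : ∀ n, (U n).Infinite) :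
    ∃ x : ℕ → Y, (∀ n, x n ∈ U n) ∧ Injective x := by
  classical
  have h1 : ∀ (n : ℕ) (s : Finset Y), ∃ y ∈ U n, y ∉ s := fun n s => (h n).exists_notMem_finset s
  choose pick hpick1 hpick2 using h1
  let st : ℕ → Finset Y := fun n => Nat.rec ∅ (fun n s => insert (pick n s) s) n
  have hst : ∀ n, st (n + 1) = insert (pick n (st n)) (st n) := fun n => rfl
  have hmono : Monotone st := monotone_nat_of_le_succ fun n => by
    rw [hst]; exact Finset.subset_insert _ _
  refine ⟨fun n => pick n (st n), fun n => hpick1 _ _, ?_⟩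
  have key : ∀ m n, m < n → pick m (st m) ≠ pick n (st n) := by
    intro m n hmn heq
    have h2 : pick m (st m) ∈ st n := by
      apply hmono (Nat.succ_le_of_lt hmn)
      change _ ∈ st (m + 1)
      rw [hst]
      exact Finset.mem_insert_self _ _
    rw [heq] at h2
    exact hpick2 _ _ h2
  intro m n hmn
  by_contra hne
  rcases lt_or_gt_of_ne hne with h2 | h2
  · exact key m n h2 hmn
  · exact key n m h2 hmn.symm

/-- The remainder `βX ∖ X` of every realcompact non-compact Tychonoff space `X` is selectively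
highly divergent. -/
theorem result (X : Type u) [TopologicalSpace X] [T35Space X] (hX : Realcompact X)
    (_hX2 : ¬ CompactSpace X) : SHD (Remainder X) := by
  intro U hU hUne
  have hinf : ∀ n, (U n).Infinite := by
    intro n
    obtain ⟨p, hp⟩ := hUne n
    have := no_isolated hX p
    exact infinite_of_mem_nhds p ((hU n).mem_nhds hp)
  obtain ⟨x, hxU, hxi⟩ := exists_inj_choice hinf
  refine ⟨x, hxU, fun φ hφ p hp => ?_⟩
  obtain ⟨h, hc, hpos, hp0, _⟩ := exists_fun hX p p.2
  have hinj : Injective (x ∘ φ) := hxi.comp hφ.injective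
  obtain ⟨N, hN⟩ : ∃ N, ∀ n, N ≤ n → (x ∘ φ) n ≠ p := by
    by_cases hex : ∃ n, (x ∘ φ) n = p
    · obtain ⟨n, hn⟩ := hex
      refine ⟨n + 1, fun m hm hmp => ?_⟩
      have := hinj (hmp.trans hn.symm)
      omega
    · push Not at hex
      exact ⟨0, fun n _ => hex n⟩
  refine no_seq hc hpos hp0 (x := fun n => ((x ∘ φ) (n + N) : StoneCech X)) ?_ ?_ ?_
  · intro m n hmn
    have := hinj (Subtype.ext hmn)
    omega
  · intro n hn
    exact hN (n + N) (by omega) (Subtype.ext hn)
  · exact (continuous_subtype_val.tendsto p).comp ((tendsto_add_atTop_iff_nat N).mpr hp)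

end Pool.Agent.Results.MP_47dce7_gt.RemainderSHD
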